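import Pool.Agent.helper50.BS.SpecC

/-!
# Project bs (MP_b34eaa_lc), modules CX2, CG7
-/

set_option autoImplicit false

open Finset

open scoped Classical

noncomputable section

namespace Pool.Agent.BS

theorem CX2 : CX2_stmt := by
  intro P R _ ic ω F hF
  unfold Xi
  have h0 : (∅ : Finset P) ∈ F.powerset.filter (fun T => Compat ic T) := by
    rw [mem_filter]
    refine ⟨empty_mem_powerset F, ?_⟩
    intro a ha
    exact absurd ha (notMem_empty a)
  rw [← add_sum_erase _ _ h0, prod_empty]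
  apply IsNilpotent.isUnit_one_add
  apply isNilpotent_sum
  intro T hT
  rw [mem_erase, mem_filter, mem_powerset] at hT
  obtain ⟨a, ha⟩ := nonempty_iff_ne_empty.2 hT.1
  rw [← mul_prod_erase _ _ ha]
  exact (Commute.all _ _).isNilpotent_mul_right (hF a (hT.2.1 ha))

theorem CG7 (hCM1 : CM1_stmt) : CG7_stmt := by
  intro B G _ Z QQ U hQ h0
  rw [← hCM1 B G Z U, ← mul_prod_erase _ _ (empty_mem_powerset U)]
  congr 1
  symm
  apply prod_subset
  · intro Q hQ'
    rw [mem_filter] at hQ'
    rw [mem_erase, mem_powerset]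
    exact ⟨fun h => h0 (h ▸ hQ'.1), hQ'.2⟩
  · intro Q hQ' hn
    rw [mem_erase, mem_powerset] at hQ'
    by_contra hc
    apply hn
    rw [mem_filter]
    exact ⟨hQ Q (nonempty_iff_ne_empty.2 hQ'.1) hc, hQ'.2⟩

end Pool.Agent.BS

end
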