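import Pool.Agent.helper50.BS.SpecC

/-!
# Project bs (MP_b34eaa_lc), modules CX3 and CX6: Moebius factors
-/

set_option autoImplicit false

open Finset

open scoped Classical

noncomputable section

namespace Pool.Agent.BS

theorem CX3_prod_zpow {G I : Type} [CommGroup G] (x : G) (T : Finset I) (g : I → ℤ) :
    ∏ i ∈ T, x ^ g i = x ^ ∑ i ∈ T, g i := by
  induction T using Finset.induction_on with
  | empty => simp
  | insert a T ha ih => rw [prod_insert ha, sum_insert ha, zpow_add, ih]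

theorem CX3_sum {I : Type} (G : Finset I) (hG : G.Nonempty) :
    ∑ B ∈ G.powerset, (-1 : ℤ) ^ (G \ B).card = 0 := by
  rw [← sum_powerset_neg_one_pow_card_of_nonempty hG]
  refine sum_nbij' (fun B => G \ B) (fun B => G \ B) ?_ ?_ ?_ ?_ ?_
  · intro B _
    exact mem_powerset.2 sdiff_subset
  · intro B _
    exact mem_powerset.2 sdiff_subset
  · intro B hB
    exact Finset.sdiff_sdiff_eq_self (mem_powerset.1 hB)
  · intro B hB
    exact Finset.sdiff_sdiff_eq_self (mem_powerset.1 hB)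
  · intro B _
    rfl

theorem CX3_bij {P M : Type} [CommMonoid M] (G1 G2 : Finset P) (hd : Disjoint G1 G2)
    (F : Finset P → M) :
    ∏ Q ∈ (G1 ∪ G2).powerset, F Q =
      ∏ A ∈ G1.powerset, ∏ B ∈ G2.powerset, F (A ∪ B) := by
  rw [← prod_product' (s := G1.powerset) (t := G2.powerset) (f := fun A B => F (A ∪ B))]
  symm
  refine prod_nbij' (fun q => q.1 ∪ q.2) (fun Q => (Q ∩ G1, Q ∩ G2)) ?_ ?_ ?_ ?_ ?_
  · rintro ⟨A, B⟩ h
    rw [mem_product, mem_powerset, mem_powerset] at h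
    exact mem_powerset.2 (union_subset_union h.1 h.2)
  · intro Q _
    rw [mem_product, mem_powerset, mem_powerset]
    exact ⟨inter_subset_right, inter_subset_right⟩
  · rintro ⟨A, B⟩ h
    rw [mem_product, mem_powerset, mem_powerset] at h
    obtain ⟨h1, h2⟩ := h
    rw [disjoint_left] at hd
    ext x
    · simp only [mem_inter, mem_union]
      constructor
      · rintro ⟨h3 | h3, h4⟩
        · exact h3
        · exact absurd (h2 h3) (hd h4)
      · intro h3
        exact ⟨Or.inl h3, h1 h3⟩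
    · simp only [mem_inter, mem_union]
      constructor
      · rintro ⟨h3 | h3, h4⟩
        · exact absurd h4 (hd (h1 h3))
        · exact h3
      · intro h3
        exact ⟨Or.inr h3, h2 h3⟩
  · intro Q hQ
    rw [mem_powerset] at hQ
    show Q ∩ G1 ∪ Q ∩ G2 = Q
    rw [← inter_union_distrib_left]
    exact inter_eq_left.2 hQ
  · rintro ⟨A, B⟩ _
    rfl

theorem CX3 (hCX1 : CX1_stmt) : CX3_stmt := by
  intro P R _ ic ω f G1 G2 hsymm hf h1 h2 hd hic
  unfold mob
  rw [CX3_bij G1 G2 hd]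
  have hmul : ∀ A ∈ G1.powerset, ∀ B ∈ G2.powerset,
      f (A ∪ B) ^ ((-1 : ℤ) ^ ((G1 ∪ G2) \ (A ∪ B)).card) =
        f A ^ ((-1 : ℤ) ^ (G1 \ A).card * (-1 : ℤ) ^ (G2 \ B).card) *
          f B ^ ((-1 : ℤ) ^ (G2 \ B).card * (-1 : ℤ) ^ (G1 \ A).card) := by
    intro A hA B hB
    rw [mem_powerset] at hA hB
    have e1 : f (A ∪ B) = f A * f B := by
      apply Units.ext
      rw [Units.val_mul, hf _ (union_subset_union hA hB), hf _ (hA.trans subset_union_left),
        hf _ (hB.trans subset_union_right)]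
      exact hCX1 P R ic ω A B hsymm (disjoint_of_subset_left hA (disjoint_of_subset_right hB hd))
        (fun a ha b hb => hic a (hA ha) b (hB hb))
    have e2 : (G1 ∪ G2) \ (A ∪ B) = (G1 \ A) ∪ (G2 \ B) := by
      rw [disjoint_left] at hd
      ext x
      simp only [mem_sdiff, mem_union, not_or]
      constructor
      · rintro ⟨h3 | h3, h4, h5⟩
        · exact Or.inl ⟨h3, h4⟩
        · exact Or.inr ⟨h3, h5⟩
      · rintro (⟨h3, h4⟩ | ⟨h3, h4⟩)
        · exact ⟨Or.inl h3, h4, fun h5 => hd h3 (hB h5)⟩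
        · exact ⟨Or.inr h3, fun h5 => hd (hA h5) h3, h4⟩
    have e3 : Disjoint (G1 \ A) (G2 \ B) :=
      disjoint_of_subset_left sdiff_subset (disjoint_of_subset_right sdiff_subset hd)
    rw [e1, e2, card_union_of_disjoint e3, pow_add, mul_zpow,
      mul_comm ((-1 : ℤ) ^ (G2 \ B).card) ((-1 : ℤ) ^ (G1 \ A).card)]
  rw [prod_congr rfl (fun A hA => prod_congr rfl (fun B hB => hmul A hA B hB))]
  simp only [prod_mul_distrib]
  have e4 : ∏ A ∈ G1.powerset, ∏ B ∈ G2.powerset,
      f A ^ ((-1 : ℤ) ^ (G1 \ A).card * (-1 : ℤ) ^ (G2 \ B).card) = 1 := by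
    apply prod_eq_one
    intro A _
    rw [CX3_prod_zpow, ← mul_sum, CX3_sum G2 h2, mul_zero, zpow_zero]
  have e5 : ∏ A ∈ G1.powerset, ∏ B ∈ G2.powerset,
      f B ^ ((-1 : ℤ) ^ (G2 \ B).card * (-1 : ℤ) ^ (G1 \ A).card) = 1 := by
    rw [prod_comm]
    apply prod_eq_one
    intro B _
    rw [CX3_prod_zpow, ← mul_sum, CX3_sum G1 h1, mul_zero, zpow_zero]
  rw [e4, e5, mul_one]

theorem CX6 (hCM1 : CM1_stmt) (hCM2 : CM2_stmt) : CX6_stmt := by
  intro P B R _ f F tr Z Q hZ
  symm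
  refine hCM2 B Rˣ Z (fun Q => ∏ G ∈ F.powerset with G.biUnion tr = Q, mob f G) Q ?_
  intro V _
  rw [hZ V, ← hCM1 P Rˣ f (F.filter (fun K => tr K ⊆ V))]
  have e1 : (F.filter (fun K => tr K ⊆ V)).powerset =
      F.powerset.filter (fun G => G.biUnion tr ⊆ V) := by
    ext G
    rw [mem_powerset, mem_filter, mem_powerset, biUnion_subset]
    constructor
    · intro h
      exact ⟨fun K hK => (mem_filter.1 (h hK)).1, fun K hK => (mem_filter.1 (h hK)).2⟩
    · rintro ⟨h, h'⟩ K hK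
      exact mem_filter.2 ⟨h hK, h' K hK⟩
  rw [e1, ← prod_fiberwise_of_maps_to (s := F.powerset.filter (fun G => G.biUnion tr ⊆ V))
    (t := V.powerset) (g := fun G => G.biUnion tr) (by
      intro G hG
      exact mem_powerset.2 (mem_filter.1 hG).2)]
  apply prod_congr rfl
  intro Q' hQ'
  apply prod_congr
  · ext G
    rw [mem_filter, mem_filter, mem_filter]
    constructor
    · rintro ⟨h, h'⟩
      refine ⟨⟨h, ?_⟩, h'⟩
      rw [h']
      exact mem_powerset.1 hQ'
    · rintro ⟨⟨h, _⟩, h'⟩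
      exact ⟨h, h'⟩
  · intro G _
    rfl

end Pool.Agent.BS

end
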